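import Pool.Agent.W580.SH.StmB

/-! Project SH (MP_ba6ea3_co), part SH-FOUR: for `θ = 1/3` a stuck set has exactly four tie rows. -/

namespace Pool.Agent.W436.SH

open Finset Pool.Agent.W580.SH

theorem nbrs (hS : S_SEP) (hB : S_BOUND) (hA : S_ADJ)
    (R : Type) [Fintype R] [DecidableEq R] (I : Finset R) (A : Finset (R → ℤ)) (O : R → ℝ)
    (θ : ℝ) (H : HypB I A O θ) (hθ : θ = 1 / 3) (J : Finset R) (hJ : J ⊆ I) (hst : Stuck A J)
    (l : R) (hl : l ∈ J) (hOl : O l = θ) :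
    ∃ j ∈ J, ∃ k ∈ J, j ≠ l ∧ k ≠ l ∧ k ≠ j ∧ O j = θ ∧ O k = θ ∧
      (∃ y ∈ A, y l = 1 ∧ y j = 1) ∧ (∃ y ∈ A, y l = 1 ∧ y k = 1) := by
  obtain ⟨u, v, huv⟩ := hst.2 l hl
  obtain ⟨j, hj, hjl, hne⟩ := huv.2 0 1 (by decide)
  obtain ⟨k, hk, hkl, hkj, e, g, he, hg, σ, hP⟩ :=
    hS R J A H.bin l u v huv j hj hjl ⟨0, 1, hne⟩
  obtain ⟨_, _, _, _, htie⟩ := hB R I A O θ H l j k e g (u ∘ σ) (v ∘ σ) (hJ hl) (hJ hj) (hJ hk)
    he hg hP
  obtain ⟨hOj, hOk, he1, hg1⟩ := htie hOl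
  refine ⟨j, hj, k, hk, hjl, hkl, hkj, hOj, hOk, ?_, ?_⟩
  · exact (hA R I A O θ H hθ J hJ hst l hl hOl j hj hOj hjl u v huv).1 ⟨0, 1, hne⟩
  · refine (hA R I A O θ H hθ J hJ hst l hl hOl k hk hOk hkl u v huv).1 ⟨σ 0, σ 2, ?_⟩
    obtain ⟨_, _, h0, _, _, _, h2⟩ := hP
    simp only [Function.comp] at h0 h2
    rw [h0, h2, hg1]
    decide

theorem pts (hO : S_ONE) (hA : S_ADJ) (hT : S_TRI)
    (R : Type) [Fintype R] [DecidableEq R] (I : Finset R) (A : Finset (R → ℤ)) (O : R → ℝ)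
    (θ : ℝ) (H : HypB I A O θ) (hθ : θ = 1 / 3) (J : Finset R) (hJ : J ⊆ I) (hst : Stuck A J)
    (l : R) (hl : l ∈ J) (hOl : O l = θ) (j : R) (hj : j ∈ J) (hOj : O j = θ) (hjl : j ≠ l)
    (hadj : ∃ y ∈ A, y l = 1 ∧ y j = 1) :
    (∃ y ∈ A, y l = 1 ∧ y j = 1 ∧ ∀ s ∈ J, O s = θ → s ≠ l → s ≠ j → y s = 0) ∧
    (∃ x ∈ A, x l = 1 ∧ ∀ s ∈ J, O s = θ → s ≠ l → x s = 0) := by
  obtain ⟨u, v, huv⟩ := hst.2 j hj
  have hadj' : ∃ y ∈ A, y j = 1 ∧ y l = 1 := by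
    obtain ⟨y, hy, h1, h2⟩ := hadj
    exact ⟨y, hy, h2, h1⟩
  have hnc := (hA R I A O θ H hθ J hJ hst j hj hOj l hl hOl (Ne.symm hjl) u v huv).2 hadj'
  obtain ⟨_, i, hi, _⟩ := hO R I A O θ H J hJ j hj hOj u v huv l hl (Ne.symm hjl) hnc
  obtain ⟨huA, hvA, huj, hvj, heq⟩ := huv.1 i
  have hz : ∀ s ∈ J, O s = θ → s ≠ l → s ≠ j → u i s = 0 := by
    intro s hs hOs hsl hsj
    rcases H.bin (u i) huA s with h | h
    · exact h
    · exfalso
      exact hT R I A O θ H hθ J hJ hst l hl hOl j hj hOj s hs hOs (Ne.symm hjl) (Ne.symm hsl)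
        (Ne.symm hsj) ⟨⟨u i, huA, hi, huj⟩, ⟨u i, huA, hi, h⟩, ⟨u i, huA, huj, h⟩⟩
  refine ⟨⟨u i, huA, hi, huj, hz⟩, ⟨v i, hvA, ?_, ?_⟩⟩
  · rw [← heq l hl (Ne.symm hjl), hi]
  · intro s hs hOs hsl
    by_cases hsj : s = j
    · rw [hsj, hvj]
    · rw [← heq s hs hsj]
      exact hz s hs hOs hsl hsj

theorem main (hS : S_SEP) (hB : S_BOUND) (hM : S_MIN) (hO : S_ONE) (hE : S_E5) (hA : S_ADJ)
    (hT : S_TRI) : S_FOUR := by
  intro R _ _ I A O θ H hθ J hJ hst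
  classical
  refine ⟨J.filter (fun r => O r = θ), ?_, fun r => by simp⟩
  have hmem : ∀ r, r ∈ J.filter (fun r => O r = θ) ↔ r ∈ J ∧ O r = θ := fun r => by simp
  set K := J.filter (fun r => O r = θ) with hK
  obtain ⟨⟨l, hl, hOl⟩, _, _⟩ := hM R I A O θ H J hJ hst
  obtain ⟨j, hj, k, hk, hjl, hkl, hkj, hOj, hOk, hlj, hlk⟩ :=
    nbrs hS hB hA R I A O θ H hθ J hJ hst l hl hOl
  apply le_antisymm
  · by_contra hcon
    push Not at hcon
    have hlK : l ∈ K := (hmem l).2 ⟨hl, hOl⟩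
    have hjK : j ∈ K := (hmem j).2 ⟨hj, hOj⟩
    have h3 : 3 ≤ ((K.erase l).erase j).card := by
      rw [card_erase_of_mem (mem_erase.2 ⟨hjl, hjK⟩), card_erase_of_mem hlK]
      omega
    obtain ⟨T, hTs, hTc⟩ := exists_subset_card_eq h3
    obtain ⟨a, b, c, hab, hac, hbc, hTe⟩ := card_eq_three.1 hTc
    have hin : ∀ x ∈ T, x ∈ J ∧ O x = θ ∧ x ≠ l ∧ x ≠ j := by
      intro x hx
      have h := hTs hx
      rw [mem_erase, mem_erase] at h
      exact ⟨((hmem x).1 h.2.2).1, ((hmem x).1 h.2.2).2, h.2.1, h.1⟩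
    obtain ⟨haJ, hOa, hal, haj⟩ := hin a (by rw [hTe]; simp)
    obtain ⟨hbJ, hOb, hbl, hbj⟩ := hin b (by rw [hTe]; simp)
    obtain ⟨hcJ, hOc, hcl, hcj⟩ := hin c (by rw [hTe]; simp)
    obtain ⟨⟨y, hyA, hyl, hyj, hy0⟩, _⟩ :=
      pts hO hA hT R I A O θ H hθ J hJ hst l hl hOl j hj hOj hjl hlj
    have hunit : ∀ s ∈ J, O s = θ → ∃ x ∈ A, x s = 1 ∧ ∀ q ∈ J, O q = θ → q ≠ s → x q = 0 := by
      intro s hs hOs
      obtain ⟨s', hs', _, _, hne, _, _, hOs', _, hadj, _⟩ :=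
        nbrs hS hB hA R I A O θ H hθ J hJ hst s hs hOs
      exact (pts hO hA hT R I A O θ H hθ J hJ hst s hs hOs s' hs' hOs' hne hadj).2
    obtain ⟨xl, hxlA, hxl1, hxl0⟩ := hunit l hl hOl
    obtain ⟨xj, hxjA, hxj1, hxj0⟩ := hunit j hj hOj
    obtain ⟨xa, hxaA, hxa1, hxa0⟩ := hunit a haJ hOa
    obtain ⟨xb, hxbA, hxb1, hxb0⟩ := hunit b hbJ hOb
    obtain ⟨xc, hxcA, hxc1, hxc0⟩ := hunit c hcJ hOc
    refine hE R I A O θ H hθ ![l, j, a, b, c] ?_ ![y, xl, xj, xa, xb, xc] ?_ (Or.inr ?_) ?_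
    · intro i
      fin_cases i <;> simp [hOl, hOj, hOa, hOb, hOc]
    · intro i
      fin_cases i <;> simp [hyA, hxlA, hxjA, hxaA, hxbA, hxcA]
    · intro i
      fin_cases i
      · simp [hyl]
      · simp [hyj]
      · simpa using hy0 a haJ hOa hal haj
      · simpa using hy0 b hbJ hOb hbl hbj
      · simpa using hy0 c hcJ hOc hcl hcj
    · intro i i'
      fin_cases i
      · fin_cases i'
        · simpa using hxl1
        · simpa using hxl0 j hj hOj hjl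
        · simpa using hxl0 a haJ hOa hal
        · simpa using hxl0 b hbJ hOb hbl
        · simpa using hxl0 c hcJ hOc hcl
      · fin_cases i'
        · simpa using hxj0 l hl hOl (Ne.symm hjl)
        · simpa using hxj1
        · simpa using hxj0 a haJ hOa haj
        · simpa using hxj0 b hbJ hOb hbj
        · simpa using hxj0 c hcJ hOc hcj
      · fin_cases i'
        · simpa using hxa0 l hl hOl (Ne.symm hal)
        · simpa using hxa0 j hj hOj (Ne.symm haj)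
        · simpa using hxa1
        · simpa using hxa0 b hbJ hOb (Ne.symm hab)
        · simpa using hxa0 c hcJ hOc (Ne.symm hac)
      · fin_cases i'
        · simpa using hxb0 l hl hOl (Ne.symm hbl)
        · simpa using hxb0 j hj hOj (Ne.symm hbj)
        · simpa using hxb0 a haJ hOa hab
        · simpa using hxb1
        · simpa using hxb0 c hcJ hOc (Ne.symm hbc)
      · fin_cases i'
        · simpa using hxc0 l hl hOl (Ne.symm hcl)
        · simpa using hxc0 j hj hOj (Ne.symm hcj)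
        · simpa using hxc0 a haJ hOa hac
        · simpa using hxc0 b hbJ hOb hbc
        · simpa using hxc1
  · obtain ⟨b, hbJ, hOb, hbl, hbj, hbk⟩ : ∃ b ∈ J, O b = θ ∧ b ≠ l ∧ b ≠ j ∧ b ≠ k := by
      have key : ∀ b ∈ J, O b = θ → b ≠ l → (∃ y ∈ A, y j = 1 ∧ y b = 1) → b ≠ k := by
        intro b _ _ _ hadj hbk
        rw [hbk] at hadj
        exact hT R I A O θ H hθ J hJ hst l hl hOl j hj hOj k hk hOk (Ne.symm hjl) (Ne.symm hkl)
          (Ne.symm hkj) ⟨hlj, hlk, hadj⟩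
      obtain ⟨a, ha, a', ha', haj, ha'j, haa, hOa, hOa', h1, h2⟩ :=
        nbrs hS hB hA R I A O θ H hθ J hJ hst j hj hOj
      by_cases hal : a = l
      · have hne : a' ≠ l := fun h => haa (by rw [h, hal])
        exact ⟨a', ha', hOa', hne, ha'j, key a' ha' hOa' hne h2⟩
      · exact ⟨a, ha, hOa, hal, haj, key a ha hOa hal h1⟩
    have hsub : ({l, j, k, b} : Finset R) ⊆ K := by
      intro x hx
      simp only [mem_insert, mem_singleton] at hx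
      rw [hmem]
      rcases hx with rfl | rfl | rfl | rfl
      · exact ⟨hl, hOl⟩
      · exact ⟨hj, hOj⟩
      · exact ⟨hk, hOk⟩
      · exact ⟨hbJ, hOb⟩
    calc 4 = ({l, j, k, b} : Finset R).card := by
          rw [card_insert_of_notMem, card_insert_of_notMem, card_insert_of_notMem, card_singleton]
          · simp [Ne.symm hbk]
          · simp [Ne.symm hkj, Ne.symm hbj]
          · simp [Ne.symm hjl, Ne.symm hkl, Ne.symm hbl]
      _ ≤ K.card := card_le_card hsub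

end Pool.Agent.W436.SH
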