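import Pool.Agent.W836.SH.Stm

/-! # Shifted Heller constant (MP_ba6ea3_co): a half row whose line family is small -/

open scoped Classical
open Pool.Agent.W836.SH

namespace Pool.Agent.W436.SHB

variable {ι : Type}

theorem res_of_mem_XX (s : ι) (I : Finset ι) (V : Finset (ι → ℝ)) (w : ι → ℝ)
    (hw : w ∈ XX s I V) : res I w = w := by
  unfold XX at hw
  rw [Finset.mem_image] at hw
  obtain ⟨u, _, rfl⟩ := hw
  funext i
  simp only [res]
  split_ifs <;> rfl

theorem pr_XX (s : ι) (I : Finset ι) (V : Finset (ι → ℝ)) : pr I (XX s I V) = XX s I V := by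
  unfold pr
  ext v
  constructor
  · intro hv
    rw [Finset.mem_image] at hv
    obtain ⟨w, hw, rfl⟩ := hv
    rw [res_of_mem_XX s I V w hw]
    exact hw
  · intro hv
    rw [Finset.mem_image]
    exact ⟨v, hv, res_of_mem_XX s I V v hv⟩

theorem even_XX (s : ι) (I : Finset ι) (V : Finset (ι → ℝ)) (hs : Sym V) (h : ι) (hI : h ∈ I)
    (hV : ∀ v ∈ V, hf (v h)) : Even (XX s I V).card := by
  have h0 : ∑ x ∈ XX s I V, (1 : ZMod 2) = 0 := by
    refine Finset.sum_involution (fun x _ => -x) ?_ ?_ ?_ ?_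
    · intro a ha
      decide
    · intro a ha _ hne
      have hne' : -a = a := hne
      have h1 : a h = 0 := by
        have := congrFun hne' h
        simp only [Pi.neg_apply] at this
        linarith
      unfold XX at ha
      rw [Finset.mem_image] at ha
      obtain ⟨u, hu, rfl⟩ := ha
      rw [Finset.mem_filter] at hu
      have h2 := hV u hu.1
      simp only [res, if_pos hI] at h1
      rw [h1] at h2
      rcases h2 with h2 | h2 <;> norm_num at h2
    · intro a ha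
      show -a ∈ XX s I V
      unfold XX at ha ⊢
      rw [Finset.mem_image] at ha ⊢
      obtain ⟨u, hu, rfl⟩ := ha
      rw [Finset.mem_filter] at hu
      obtain ⟨huV, w, hw, hw1, hw2⟩ := hu
      refine ⟨-u, ?_, ?_⟩
      · rw [Finset.mem_filter]
        refine ⟨hs u huV, -w, hs w hw, ?_, ?_⟩
        · intro i hi
          simp only [Pi.neg_apply]
          rw [hw1 i hi]
        · intro hcon
          simp only [Pi.neg_apply] at hcon
          exact hw2 (by linarith)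
      · funext i
        simp only [res, Pi.neg_apply]
        split_ifs <;> simp
    · intro a ha
      simp
  rw [Finset.sum_const, nsmul_eq_mul, mul_one] at h0
  rw [even_iff_two_dvd]
  exact (ZMod.natCast_eq_zero_iff _ _).1 h0

theorem pm_sq {σ : ℝ} (h : pm σ) : σ * σ = 1 := by
  rcases h with h | h <;> rw [h] <;> norm_num

theorem pm_hf {σ t : ℝ} (h : pm σ) (ht : hf t) : hf (σ * t) := by
  rcases h with h | h <;> rcases ht with ht | ht <;> rw [h, ht] <;> unfold hf <;> norm_num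

theorem main (h1 : S_T) (h2 : S_RED) (h3 : S_BETA) (h4 : S_GAMMA) : S_B := by
  intro ι R H V hS hH
  by_contra hcon
  push Not at hcon
  have hS' := hS
  obtain ⟨hdis, hTS, hSym, hInt, hHalf, hSupp⟩ := hS'
  -- the erased set
  have hIe : ∀ s ∈ H, (R ∪ H).erase s = R ∪ H.erase s := by
    intro s hs
    have hsR : s ∉ R := fun h => (Finset.disjoint_left.1 hdis h) hs
    ext i
    simp only [Finset.mem_erase, Finset.mem_union]
    constructor
    · rintro ⟨hi, h | h⟩
      · exact Or.inl h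
      · exact Or.inr ⟨hi, h⟩
    · rintro (h | ⟨hi, h⟩)
      · exact ⟨fun hh => hsR (hh ▸ h), Or.inl h⟩
      · exact ⟨hi, Or.inr h⟩
  have h4le : ∀ s ∈ H, 4 ≤ ee R (H.erase s) (XX s ((R ∪ H).erase s) V) := by
    intro s hs
    have hc := hcon s hs
    obtain ⟨h, hh, hne⟩ := Finset.exists_mem_ne (s := H) (by omega) s
    have hev := even_XX s ((R ∪ H).erase s) V hSym h
      (Finset.mem_erase.2 ⟨hne, Finset.mem_union_right _ hh⟩) (fun v hv => hHalf v hv h hh)
    unfold ee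
    rw [← hIe s hs, pr_XX, Finset.card_erase_of_mem hs]
    obtain ⟨k, hk⟩ := hev
    have : 1 ≤ H.card := by omega
    push_cast [Nat.cast_sub this]
    have h5 : R.card + H.card + 1 ≤ k := by omega
    rw [hk]
    push_cast
    have h6 : (R.card : ℤ) + H.card + 1 ≤ k := by exact_mod_cast h5
    linarith
  -- the maximum
  have hne : (H.sigma (fun s => (H.erase s).powerset)).Nonempty := by
    obtain ⟨s, hs⟩ : H.Nonempty := Finset.card_pos.1 (by omega)
    exact ⟨⟨s, ∅⟩, by simp [hs]⟩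
  obtain ⟨⟨s0, P0⟩, hm, hmax⟩ := Finset.exists_max_image
    (H.sigma (fun s => (H.erase s).powerset))
    (fun x => ee R x.2 (XX x.1 ((R ∪ H).erase x.1) V)) hne
  simp only [Finset.mem_sigma, Finset.mem_powerset] at hm hmax
  obtain ⟨E, hE⟩ : ∃ E, E = ee R P0 (XX s0 ((R ∪ H).erase s0) V) := ⟨_, rfl⟩
  have hle : ∀ s ∈ H, ∀ P ⊆ H.erase s, ee R P (XX s ((R ∪ H).erase s) V) ≤ E := by
    intro s hs P hP
    rw [hE]
    exact hmax ⟨s, P⟩ ⟨hs, hP⟩
  have hE4 : 4 ≤ E := le_trans (h4le s0 hm.1) (hle s0 hm.1 _ (Finset.Subset.refl _))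
  -- the second alternative
  have hsec : ∀ s ∈ H, (∃ P ⊆ H.erase s, ee R P (XX s ((R ∪ H).erase s) V) = E) →
      ∃ D ⊆ H.erase s, ∃ j ∈ H.erase s, j ∉ D ∧ 2 ≤ D.card ∧ E ≤ 2 * (D.card : ℤ) ∧
      (3 ≤ D.card → TIE D V) ∧
      (∀ a ∈ D, ∀ b ∈ D, a ≠ b → Full4 (V0 R V) s j a b) ∧
      ∃ x x' y y' : ι → ℝ, KK R V s x x' y y' ∧ x j ≠ y j ∧ ∀ d ∈ D, x d = y d := by
    intro s hs hP
    rcases h1 ι R H V s E hS hs (hle s hs) hP (by linarith) with ⟨W, hW, hW3, hWE, hT⟩ | h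
    · exfalso
      obtain ⟨a, ha⟩ : W.Nonempty := Finset.card_pos.1 (by omega)
      have haH : a ∈ H := Finset.mem_of_mem_erase (hW ha)
      obtain ⟨P, hP, hPe⟩ := h2 ι R H W V a hS
        (fun i hi => Finset.mem_of_mem_erase (hW hi)) ha hW3 hT
      have h5 := hle a haH P hP
      have h6 := h4le a haH
      linarith
    · exact h
  obtain ⟨D, hD, j, hj, hjD, hD2, hDE, hDT, hDF, x, x', y, y', hK, hxj, hxd⟩ :=
    hsec s0 hm.1 ⟨P0, hm.2, hE.symm⟩
  have hnext : ∀ a ∈ D, ∃ P ⊆ H.erase a, ee R P (XX a ((R ∪ H).erase a) V) = E := by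
    intro a ha
    have haH : a ∈ H := Finset.mem_of_mem_erase (hD ha)
    have h6 := h4le a haH
    by_cases h3c : 3 ≤ D.card
    · obtain ⟨P, hP, hPe⟩ := h2 ι R H D V a hS
        (fun i hi => Finset.mem_of_mem_erase (hD hi)) ha h3c (hDT h3c)
      refine ⟨P, hP, le_antisymm (hle a haH P hP) ?_⟩
      linarith
    · refine ⟨H.erase a, Finset.Subset.refl _, le_antisymm (hle a haH _ (Finset.Subset.refl _)) ?_⟩
      have h7 : D.card = 2 := by omega
      rw [h7] at hDE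
      push_cast at hDE
      linarith
  obtain ⟨a, ha, b, hb, hab⟩ := Finset.one_lt_card.1 (show 1 < D.card by omega)
  have hjH : j ∈ H := Finset.mem_of_mem_erase hj
  have haH : a ∈ H := Finset.mem_of_mem_erase (hD ha)
  have hbH : b ∈ H := Finset.mem_of_mem_erase (hD hb)
  have hsj : s0 ≠ j := (Finset.ne_of_mem_erase hj).symm
  have hsa : s0 ≠ a := (Finset.ne_of_mem_erase (hD ha)).symm
  have hsb : s0 ≠ b := (Finset.ne_of_mem_erase (hD hb)).symm
  have hja : j ≠ a := fun h => hjD (h ▸ ha)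
  have hjb : j ≠ b := fun h => hjD (h ▸ hb)
  have hF := hDF a ha b hb hab
  obtain ⟨D', hD', g, hg, hgD', hD2', hDE', hDT', hDF', z, z', w, w', hK', hzg, hzd⟩ :=
    hsec a haH (hnext a ha)
  obtain ⟨hxz, hzs, hzj, hzb⟩ := h3 ι R H V s0 j a b x x' y y' z z' w w' hS hm.1 hjH haH hbH
    hsj hsa hsb hja hjb hab hF hK hxj (hxd a ha) (hxd b hb) hK'
  have hgH : g ∈ H := Finset.mem_of_mem_erase hg
  have hga : g ≠ a := Finset.ne_of_mem_erase hg
  have hgs : g ≠ s0 := fun h => hzg (by rw [h]; exact hzs)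
  have hgj : g ≠ j := fun h => hzg (by rw [h]; exact hzj)
  have hgb : g ≠ b := fun h => hzg (by rw [h]; exact hzb)
  rcases h4 ι R H V s0 j a b g x x' y y' z z' w w' hS hm.1 hjH haH hbH hgH
    hsj hsa hsb hja hjb hab hgs hgj hga hgb hF hK hxj (hxd a ha) (hxd b hb) hK' hxz hzs hzj hzb
    hzg with ⟨σ, hσ, hv⟩ | ⟨hxg, σ, hσ, hv⟩
  · have hF2 : Full4 (V0 R V) a g s0 j := by
      intro e1 e2 e3 e4 he1 he2 he3 he4
      obtain ⟨v, hvm, hv1, hv2, hv3, hv4⟩ := hF e3 e4 e1 (σ * e2) he3 he4 he1 (pm_hf hσ he2)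
      refine ⟨v, hvm, hv3, ?_, hv1, hv2⟩
      rw [hv v hvm, hv4, ← mul_assoc, pm_sq hσ, one_mul]
    obtain ⟨_, _, _, h7⟩ := h3 ι R H V a g s0 j z z' w w' x x' y y' hS haH hgH hm.1 hjH
      hga.symm hsa.symm hja.symm hgs hgj hsj hF2 hK' hzg hzs hzj hK
    exact hxj h7
  · have hF2 : Full4 (V0 R V) a g s0 b := by
      intro e1 e2 e3 e4 he1 he2 he3 he4
      obtain ⟨v, hvm, hv1, hv2, hv3, hv4⟩ := hF e3 (σ * e2) e1 e4 he3 (pm_hf hσ he2) he1 he4
      refine ⟨v, hvm, hv3, ?_, hv1, hv4⟩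
      rw [hv v hvm, hv2, ← mul_assoc, pm_sq hσ, one_mul]
    obtain ⟨_, _, h7, _⟩ := h3 ι R H V a g s0 b z z' w w' x x' y y' hS haH hgH hm.1 hbH
      hga.symm hsa.symm hab hgs hgb hsb hF2 hK' hzg hzs hzb hK
    exact hxg h7

end Pool.Agent.W436.SHB
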